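import Mathlib

/-!
# The concrete groups

`Lam p = SL₃(𝔽_p[X])`, `Rng p = 𝔽_p[Lam p]` (group algebra) and `GG p = GL₄(Rng p)`.
-/

namespace Pool.Agent.Helper13.Sof

open Matrix Polynomial

noncomputable section

/-- `SL₃(𝔽_p[X])`. -/
abbrev Lam (p : ℕ) : Type := Matrix.SpecialLinearGroup (Fin 3) (ZMod p)[X]

/-- The elementary matrix `1 + c E_{ij}` of size three. -/
def el {p : ℕ} (i j : Fin 3) (h : i ≠ j) (c : (ZMod p)[X]) : Lam p :=
  ⟨Matrix.transvection i j c, Matrix.det_transvection_of_ne i j h c⟩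

/-- The group algebra of `SL₃(𝔽_p[X])` over `𝔽_p`. -/
abbrev Rng (p : ℕ) : Type := MonoidAlgebra (ZMod p) (Lam p)

/-- `GL₄` of the group algebra. -/
abbrev GG (p : ℕ) : Type := (Matrix (Fin 4) (Fin 4) (Rng p))ˣ

/-- The elementary matrix `1 + c E_{ij}` of size four over the group algebra. -/
def eu {p : ℕ} (i j : Fin 4) (h : i ≠ j) (c : Rng p) : GG p where
  val := 1 + Matrix.single i j c
  inv := 1 + Matrix.single i j (-c)
  val_inv := by
    have e : Matrix.single i j c * Matrix.single i j (-c) = 0 :=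
      Matrix.single_mul_single_of_ne (h := h.symm) ..
    rw [mul_add, add_mul, add_mul, e, one_mul, one_mul, mul_one, add_zero, add_assoc,
      ← Matrix.single_add]
    simp
  inv_val := by
    have e : Matrix.single i j (-c) * Matrix.single i j c = 0 :=
      Matrix.single_mul_single_of_ne (h := h.symm) ..
    rw [mul_add, add_mul, add_mul, e, one_mul, one_mul, mul_one, add_zero, add_assoc,
      ← Matrix.single_add]
    simp

/-- The diagonal matrix `(1, 1, 1, σ)`. -/
def dg {p : ℕ} (σ : Lam p) : GG p where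
  val := Matrix.diagonal (fun i => if i = 3 then MonoidAlgebra.of (ZMod p) (Lam p) σ else 1)
  inv := Matrix.diagonal (fun i => if i = 3 then MonoidAlgebra.of (ZMod p) (Lam p) σ⁻¹ else 1)
  val_inv := by
    rw [Matrix.diagonal_mul_diagonal, ← Matrix.diagonal_one]
    congr 1
    funext i
    split_ifs
    · rw [← map_mul, mul_inv_cancel, map_one]
    · simp
  inv_val := by
    rw [Matrix.diagonal_mul_diagonal, ← Matrix.diagonal_one]
    congr 1
    funext i
    split_ifs
    · rw [← map_mul, inv_mul_cancel, map_one]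
    · simp

/-- `1 + X E_{01}`. -/
def lα (p : ℕ) : Lam p := el 0 1 (by decide) X
/-- `1 + E_{12}`. -/
def lβ (p : ℕ) : Lam p := el 1 2 (by decide) 1
/-- `1 + E_{20}`. -/
def lγ (p : ℕ) : Lam p := el 2 0 (by decide) 1
/-- `t = (1 + X E_{02}) (1 + E_{20})`. -/
def lt (p : ℕ) : Lam p := el 0 2 (by decide) X * el 2 0 (by decide) 1

/-- The generators of the subgroup `K` of `GG p`. -/
def kfam (p : ℕ) : Fin 6 → GG p :=
  ![eu 0 1 (by decide) 1, eu 1 2 (by decide) 1, eu 2 3 (by decide) 1,
    eu 2 0 (by decide) (MonoidAlgebra.of (ZMod p) (Lam p) (lβ p)),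
    eu 2 0 (by decide) (MonoidAlgebra.of (ZMod p) (Lam p) (lt p)),
    eu 2 0 (by decide) (MonoidAlgebra.of (ZMod p) (Lam p) (lα p * lt p))]

/-- The generators of the diagonal copy of a Kazhdan group. -/
def lfam (p : ℕ) : Fin 3 → GG p := ![dg (lα p), dg (lβ p), dg (lγ p)]

/-- The elements that conjugate `K` into itself. -/
def ufam (p : ℕ) : Fin 3 → GG p := ![dg (lβ p)⁻¹, dg (lt p)⁻¹, dg (lα p * lt p)⁻¹]

/-- Residual finiteness. -/
def ResFin (G : Type) [Group G] : Prop :=
  ∀ g : G, g ≠ 1 → ∃ (Q : Type) (_ : Group Q) (_ : Finite Q) (f : G →* Q), f g ≠ 1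

end

end Pool.Agent.Helper13.Sof
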