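import Pool.Agent.Helper13.Sof.Goals

/-!
# Counting lemmas
-/

namespace Pool.Agent.Helper13.Sof

open Finset Pool.Agent.Helper2.Sofic

noncomputable section

variable {A : Type} [Fintype A]

theorem cnt_eq (P : A → Prop) [DecidablePred P] :
    cnt P = ((univ.filter P).card : ℝ) := by
  unfold cnt
  congr!

theorem cnt_mono {P Q : A → Prop} (h : ∀ s, P s → Q s) : cnt P ≤ cnt Q := by
  classical
  unfold cnt
  exact_mod_cast card_le_card (fun s hs => by
    simp only [mem_filter, mem_univ, true_and] at hs ⊢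
    exact h s hs)

theorem cnt_nonneg (P : A → Prop) : 0 ≤ cnt P := by
  unfold cnt
  positivity

theorem cnt_or_le (P Q : A → Prop) : cnt (fun s => P s ∨ Q s) ≤ cnt P + cnt Q := by
  classical
  rw [cnt_eq, cnt_eq, cnt_eq]
  have h : (univ.filter (fun s => P s ∨ Q s)).card ≤
      (univ.filter P ∪ univ.filter Q).card := card_le_card (fun s hs => by
    simp only [mem_filter, mem_univ, true_and, mem_union] at hs ⊢
    exact hs)
  have h2 := h.trans (card_union_le _ _)
  exact_mod_cast h2

theorem cnt_le_add {P Q R : A → Prop} (h : ∀ s, P s → Q s ∨ R s) : cnt P ≤ cnt Q + cnt R :=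
  (cnt_mono h).trans (cnt_or_le _ _)

theorem cnt_le_card (P : A → Prop) : cnt P ≤ (Fintype.card A : ℝ) := by
  classical
  unfold cnt
  exact_mod_cast card_filter_le _ _

theorem cnt_perm (σ : Equiv.Perm A) (P : A → Prop) : cnt (fun s => P (σ s)) = cnt P := by
  classical
  unfold cnt
  congr 1
  apply card_bij (fun s _ => σ s)
  · intro s hs
    simpa using hs
  · intro a _ b _ h
    exact σ.injective h
  · intro b hb
    refine ⟨σ.symm b, ?_, by simp⟩
    simpa using hb

theorem cnt_not (P : A → Prop) : cnt (fun s => ¬ P s) = (Fintype.card A : ℝ) - cnt P := by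
  classical
  rw [cnt_eq, cnt_eq]
  have := card_filter_add_card_filter_not (s := (univ : Finset A)) P
  rw [card_univ] at this
  have h2 : ((univ.filter P).card : ℝ) + ((univ.filter (fun s => ¬ P s)).card : ℝ) =
      (Fintype.card A : ℝ) := by exact_mod_cast this
  linarith

theorem cnt_mem (S : Finset A) : cnt (fun s => s ∈ S) = (S.card : ℝ) := by
  classical
  unfold cnt
  congr 2
  ext s
  simp

theorem cnt_eq_natCard (P : A → Prop) : cnt P = (Nat.card {s // P s} : ℝ) := by
  classical
  unfold cnt
  rw [Nat.card_eq_fintype_card, Fintype.card_subtype]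

theorem AHom.mono {G : Type} [Group G] {ψ : G → Equiv.Perm A} {F F' : Finset G} {ε ε' : ℝ}
    (h : AHom ψ F ε) (hF : F' ⊆ F) (hε : ε ≤ ε') : AHom ψ F' ε' :=
  ⟨h.1, fun g hg k hk => (h.2 g (hF hg) k (hF hk)).trans
    (mul_le_mul_of_nonneg_right hε (Nat.cast_nonneg _))⟩

end

end Pool.Agent.Helper13.Sof
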