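import Pool.Agent.Helper13.Sof.Basic

/-!
# The non-soficity criterion
-/

namespace Pool.Agent.Helper13.Sof

open Finset Pool.Agent.Helper2.Sofic

noncomputable section

theorem cnt_le3 {A : Type} [Fintype A] {P Q R T : A → Prop}
    (h : ∀ s, P s → Q s ∨ R s ∨ T s) : cnt P ≤ cnt Q + cnt R + cnt T := by
  have h1 := cnt_le_add h
  have h2 := cnt_or_le R T
  linarith

theorem cnt_le4 {A : Type} [Fintype A] {P Q R T U : A → Prop}
    (h : ∀ s, P s → Q s ∨ R s ∨ T s ∨ U s) : cnt P ≤ cnt Q + cnt R + cnt T + cnt U := by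
  have h1 := cnt_le_add h
  have h2 := cnt_or_le R (fun s => T s ∨ U s)
  have h3 := cnt_or_le T U
  linarith

/-- From a sofic action: almost actions with a colouring that sees the stabilizer of `x0`. -/
theorem exists_colouring {G X : Type} [Group G] (α : G →* Equiv.Perm X) (h : IsSofic α)
    (x0 : X) (F : Finset G) (ε : ℝ) (hε : 0 < ε) :
    ∃ (A : Type) (_ : Fintype A) (ψ : G → Equiv.Perm A) (c : A → ℕ),
      0 < Fintype.card A ∧ AHom ψ F ε ∧
      (∀ g ∈ F, α g x0 = x0 → cnt (fun s => c (ψ g s) ≠ c s) ≤ 2 * ε * (Fintype.card A : ℝ)) ∧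
      (∀ g ∈ F, α g x0 ≠ x0 → cnt (fun s => c (ψ g s) = c s) ≤
        2 * ε * (Fintype.card A : ℝ)) := by
  classical
  set ε' : ℝ := min ε (1 / 2) with hε'
  have hε'0 : 0 < ε' := lt_min hε (by norm_num)
  obtain ⟨A, hA, φ, h1, h2, B, hB, S, π, hS, hinj, heq⟩ :=
    h F (insert x0 (F.image (fun g => α g⁻¹ x0))) ε' hε'0
  let _ : Fintype A := Fintype.ofFinite A
  obtain ⟨nB, ⟨eB⟩⟩ := Finite.exists_equiv_fin B
  have hcard : (Nat.card A : ℝ) = (Fintype.card A : ℝ) := by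
    rw [Nat.card_eq_fintype_card]
  have hNpos : 0 < Fintype.card A := by
    rcases Nat.eq_zero_or_pos (Fintype.card A) with h0 | h0
    · exfalso
      have hemp : IsEmpty A := Fintype.card_eq_zero_iff.1 h0
      have : Nat.card S = 0 := by
        rw [Nat.card_eq_zero]
        left
        exact ⟨fun a => hemp.false a.1⟩
      rw [hcard, h0, this] at hS
      simp at hS
    · exact h0
  have hN : (0 : ℝ) < (Fintype.card A : ℝ) := by exact_mod_cast hNpos
  have hSc : cnt (fun s => s ∉ S) ≤ ε' * (Fintype.card A : ℝ) := by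
    rw [cnt_not]
    have e : cnt (fun s => s ∈ S) = (Nat.card S : ℝ) := by
      rw [cnt_eq_natCard]
    rw [e]
    rw [hcard] at hS
    linarith
  have hε1 : ε' ≤ ε := min_le_left _ _
  refine ⟨A, inferInstance, φ, fun s => (eB (π s x0) : ℕ), hNpos, ⟨h1, ?_⟩, ?_, ?_⟩
  · intro g hg k hk
    have h3 := h2 g hg k hk
    unfold hdist at h3
    rw [hcard, div_lt_iff₀ hN] at h3
    have e : cnt (fun s => φ (g * k) s ≠ φ g (φ k s)) =
        (Nat.card {a : A // φ (g * k) a ≠ (φ g * φ k) a} : ℝ) := by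
      rw [cnt_eq_natCard]
      rfl
    rw [e]
    calc _ ≤ ε' * (Fintype.card A : ℝ) := h3.le
      _ ≤ _ := mul_le_mul_of_nonneg_right hε1 hN.le
  · intro g hg hgx
    have hgx' : α g⁻¹ x0 = x0 := by
      rw [map_inv, Equiv.Perm.inv_eq_iff_eq]
      exact hgx.symm
    have h3 : cnt (fun s => (eB (π (φ g s) x0) : ℕ) ≠ (eB (π s x0) : ℕ)) ≤
        cnt (fun s => s ∉ S) + cnt (fun s => φ g s ∉ S) := by
      apply cnt_le_add
      intro s hs
      by_contra hcon
      push Not at hcon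
      apply hs
      rw [heq s hcon.1 g hg x0 (mem_insert_self _ _) hcon.2
        (by rw [hgx']; exact mem_insert_self _ _), hgx']
    rw [cnt_perm (φ g) (fun s => s ∉ S)] at h3
    nlinarith
  · intro g hg hgx
    have hgx' : α g⁻¹ x0 ≠ x0 := by
      rw [map_inv, ne_eq, Equiv.Perm.inv_eq_iff_eq]
      exact fun h' => hgx h'.symm
    have hmem : α g⁻¹ x0 ∈ insert x0 (F.image (fun g => α g⁻¹ x0)) :=
      mem_insert_of_mem (mem_image_of_mem _ hg)
    have h3 : cnt (fun s => (eB (π (φ g s) x0) : ℕ) = (eB (π s x0) : ℕ)) ≤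
        cnt (fun s => s ∉ S) + cnt (fun s => φ g s ∉ S) := by
      apply cnt_le_add
      intro s hs
      by_contra hcon
      push Not at hcon
      rw [heq s hcon.1 g hg x0 (mem_insert_self _ _) hcon.2 hmem] at hs
      have h4 := eB.injective (Fin.ext hs)
      exact hgx' (hinj s hcon.1 (mem_coe.2 hmem) (mem_coe.2 (mem_insert_self _ _)) h4)
    rw [cnt_perm (φ g) (fun s => s ∉ S)] at h3
    nlinarith

theorem card_part_comp {A : Type} [Fintype A] (σ : Equiv.Perm A) (q : A → ℕ) (s : A) :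
    (part (fun t => q (σ t)) s).card = (part q (σ s)).card := by
  classical
  unfold part
  apply card_bij (fun t _ => σ t)
  · intro t ht
    simpa using ht
  · intro a _ b _ h
    exact σ.injective h
  · intro b hb
    refine ⟨σ.symm b, ?_, by simp⟩
    simpa using hb

theorem dom_le {A : Type} [Fintype A] {q r : A → ℕ} {τ : ℝ} {s : A} (h : Dom q r τ s) :
    (1 - τ) * ((part q s).card : ℝ) ≤ ((part r s).card : ℝ) := by
  classical
  refine h.trans ?_
  have e : ((part r s).card : ℝ) = cnt (fun s' => r s' = r s) := by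
    rw [cnt_eq]
    unfold part
    congr!
  rw [e]
  exact cnt_mono (fun t ht => ht.2)

theorem numM {n m D M : ℝ} (hn : 0 ≤ n) (hm : 0 ≤ m) (hD : 1 ≤ D)
    (hM : M = (n + 1) * (3 + D * (n + m + 3))) :
    3 ≤ M ∧ n * (3 + D * (n + 2)) ≤ M ∧ 3 * n ≤ M ∧ D * (m + 2) ≤ M ∧ D + 1 ≤ M ∧
      2 + D * (n + 2) ≤ M := by
  have h1 : 0 ≤ D * n := mul_nonneg (by linarith) hn
  have h2 : 0 ≤ D * m := mul_nonneg (by linarith) hm
  have h3 : 0 ≤ D * n * n := mul_nonneg h1 hn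
  have h4 : 0 ≤ D * m * n := mul_nonneg h2 hn
  have e : M = 3 * n + 3 + D * n * n + D * m * n + 3 * (D * n) + D * n + D * m + 3 * D := by
    rw [hM]; ring
  refine ⟨by linarith, ?_, by linarith, by linarith, by linarith, by linarith⟩
  have e2 : n * (3 + D * (n + 2)) = 3 * n + D * n * n + 2 * (D * n) := by ring
  linarith

theorem core (hD : Decomp) (hM : MkKSys) (hWL : WordLabel) (hWF : WordFlux) (hDom : DomLemma)
    (hMono : MonoLemma) (hFin : FinalLemma) : Core := by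
  classical
  intro G _ p n m m' _ k l u hk hl hnp hmp hul hlu huk i0 d hd X α x0 hfix hmove hsof
  have hp : 0 < p := (Fact.out : p.Prime).pos
  choose Cf Ff hCf hflux using fun j => hWF G m' u (l j) (hlu j)
  obtain ⟨C, hC⟩ : ∃ C : ℝ, C = ∑ j, Cf j + 1 := ⟨_, rfl⟩
  have hCsum : 0 ≤ ∑ j, Cf j := sum_nonneg (fun j _ => hCf j)
  have hC0 : 0 ≤ C := by rw [hC]; linarith
  have hCfle : ∀ j, Cf j + 1 ≤ C := by
    intro j
    have := single_le_sum (f := Cf) (fun j _ => hCf j) (mem_univ j)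
    rw [hC]
    linarith
  obtain ⟨τL, hτL, HL⟩ := hMono m m' C (1 / 20) hC0 (by norm_num)
  obtain ⟨δL, hδL, HDL⟩ := hD m p hmp τL hτL
  obtain ⟨δM, hδM, HM⟩ := HL δL hδL
  obtain ⟨μ, hμ⟩ : ∃ μ : ℝ, μ = min δM (1 / 20) := ⟨_, rfl⟩
  have hμ0 : 0 < μ := by rw [hμ]; exact lt_min hδM (by norm_num)
  have hμ1 : μ ≤ δM := by rw [hμ]; exact min_le_left _ _
  have hμ2 : μ ≤ 1 / 20 := by rw [hμ]; exact min_le_right _ _
  obtain ⟨δK, hδK, HDK⟩ := hD n p hnp (μ / 4) (by linarith)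
  choose CW FW hCW hWW using fun (ij : Fin m' × Fin n) =>
    hWL G n k (u ij.1 * k ij.2 * (u ij.1)⁻¹) (huk ij.1 ij.2)
  choose CU FU hCU hUU using fun i => hWL G m l (u i) (hul i)
  obtain ⟨Cd, Fd, hCd, hdd⟩ := hWL G n k d hd
  obtain ⟨D, hDd⟩ : ∃ D : ℝ, D = ∑ ij, CW ij + ∑ i, CU i + Cd + C + 1 := ⟨_, rfl⟩
  have hs1 : 0 ≤ ∑ ij, CW ij := sum_nonneg (fun j _ => hCW j)
  have hs2 : 0 ≤ ∑ i, CU i := sum_nonneg (fun j _ => hCU j)
  have hDW : ∀ ij, CW ij ≤ D := by
    intro ij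
    have := single_le_sum (f := CW) (fun j _ => hCW j) (mem_univ ij)
    rw [hDd]; linarith
  have hDU : ∀ i, CU i ≤ D := by
    intro i
    have := single_le_sum (f := CU) (fun j _ => hCU j) (mem_univ i)
    rw [hDd]; linarith
  have hDC : C ≤ D := by rw [hDd]; linarith
  have hDdd : Cd ≤ D := by rw [hDd]; linarith
  have hD1 : 1 ≤ D := by rw [hDd]; linarith
  have hn0 : (0 : ℝ) ≤ (n : ℝ) := Nat.cast_nonneg _
  have hm0 : (0 : ℝ) ≤ (m : ℝ) := Nat.cast_nonneg _
  obtain ⟨t, ht⟩ : ∃ t : ℝ, t = min μ (μ * δK / 8) := ⟨_, rfl⟩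
  have ht0 : 0 < t := by rw [ht]; exact lt_min hμ0 (by positivity)
  have ht1 : t ≤ μ := by rw [ht]; exact min_le_left _ _
  have ht2 : t ≤ μ * δK / 8 := by rw [ht]; exact min_le_right _ _
  obtain ⟨M, hMd⟩ : ∃ M : ℝ, M = ((n : ℝ) + 1) * (3 + D * ((n : ℝ) + m + 3)) := ⟨_, rfl⟩
  obtain ⟨hM3, hMa, hMb, hMc, hMe, hMf⟩ := numM hn0 hm0 hD1 hMd
  have hM0 : 0 < M := by linarith
  obtain ⟨θ, hθ⟩ : ∃ θ : ℝ, θ = t / M := ⟨_, rfl⟩
  have hθ0 : 0 < θ := by rw [hθ]; positivity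
  have hθM : θ * M = t := by rw [hθ]; field_simp
  have hθt : θ ≤ t := by
    calc θ = θ * 1 := (mul_one _).symm
      _ ≤ θ * M := mul_le_mul_of_nonneg_left (by linarith) hθ0.le
      _ = t := hθM
  obtain ⟨εK, hεK, HK⟩ := HDK θ hθ0
  obtain ⟨εL, hεL, HLL⟩ := HDL θ hθ0
  obtain ⟨ε1, hε1⟩ : ∃ ε1 : ℝ, ε1 = min (min εK εL) θ := ⟨_, rfl⟩
  have hε10 : 0 < ε1 := by rw [hε1]; exact lt_min (lt_min hεK hεL) hθ0
  have hε1K : ε1 ≤ εK := by rw [hε1]; exact (min_le_left _ _).trans (min_le_left _ _)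
  have hε1L : ε1 ≤ εL := by rw [hε1]; exact (min_le_left _ _).trans (min_le_right _ _)
  have hε1θ : ε1 ≤ θ := by rw [hε1]; exact min_le_right _ _
  obtain ⟨FK, eK, heK, hKS⟩ := hM G n p hp k hk ε1 hε10
  obtain ⟨FL, eL, heL, hLS⟩ := hM G m p hp l hl ε1 hε10
  obtain ⟨e, he⟩ : ∃ e : ℝ, e = min (min eK eL) θ := ⟨_, rfl⟩
  have he0 : 0 < e := by rw [he]; exact lt_min (lt_min heK heL) hθ0
  have heeK : e ≤ eK := by rw [he]; exact (min_le_left _ _).trans (min_le_left _ _)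
  have heeL : e ≤ eL := by rw [he]; exact (min_le_left _ _).trans (min_le_right _ _)
  have heθ : e ≤ θ := by rw [he]; exact min_le_right _ _
  obtain ⟨F, hF⟩ : ∃ F : Finset G, F = FK ∪ FL ∪ univ.biUnion Ff ∪ univ.biUnion FW ∪
    univ.biUnion FU ∪ Fd ∪ univ.image k ∪ univ.image u ∪
    univ.image (fun ij : Fin m' × Fin n => u ij.1 * k ij.2 * (u ij.1)⁻¹) ∪
    {d, (u i0)⁻¹ * d * u i0} := ⟨_, rfl⟩
  have sFK : FK ⊆ F := fun g hg => by rw [hF]; simp [hg]
  have sFL : FL ⊆ F := fun g hg => by rw [hF]; simp [hg]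
  have sFf : ∀ j, Ff j ⊆ F := fun j g hg => by
    rw [hF]
    have : g ∈ univ.biUnion Ff := mem_biUnion.2 ⟨j, mem_univ _, hg⟩
    simp only [mem_union, this, true_or, or_true]
  have sFW : ∀ j, FW j ⊆ F := fun j g hg => by
    rw [hF]
    have : g ∈ univ.biUnion FW := mem_biUnion.2 ⟨j, mem_univ _, hg⟩
    simp only [mem_union, this, true_or, or_true]
  have sFU : ∀ j, FU j ⊆ F := fun j g hg => by
    rw [hF]
    have : g ∈ univ.biUnion FU := mem_biUnion.2 ⟨j, mem_univ _, hg⟩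
    simp only [mem_union, this, true_or, or_true]
  have sFd : Fd ⊆ F := fun g hg => by rw [hF]; simp only [mem_union, hg, true_or, or_true]
  have mk : ∀ j, k j ∈ F := fun j => by
    rw [hF]
    have : k j ∈ univ.image k := mem_image_of_mem _ (mem_univ _)
    simp only [mem_union, this, true_or, or_true]
  have mu : ∀ j, u j ∈ F := fun j => by
    rw [hF]
    have : u j ∈ univ.image u := mem_image_of_mem _ (mem_univ _)
    simp only [mem_union, this, true_or, or_true]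
  have mw : ∀ i j, u i * k j * (u i)⁻¹ ∈ F := fun i j => by
    rw [hF]
    have : u i * k j * (u i)⁻¹ ∈
        univ.image (fun ij : Fin m' × Fin n => u ij.1 * k ij.2 * (u ij.1)⁻¹) :=
      mem_image.2 ⟨(i, j), mem_univ _, rfl⟩
    simp only [mem_union, this, true_or, or_true]
  have md : d ∈ F := by rw [hF]; simp
  have mg : (u i0)⁻¹ * d * u i0 ∈ F := by
    rw [hF]
    have : (u i0)⁻¹ * d * u i0 ∈ ({d, (u i0)⁻¹ * d * u i0} : Finset G) := by simp
    simp only [mem_union, this, or_true]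
  obtain ⟨A, hA, ψ, c, hApos, hψ, hc1, hc2⟩ := exists_colouring α hsof x0 F e he0
  obtain ⟨N, hN⟩ : ∃ N : ℝ, N = (Fintype.card A : ℝ) := ⟨_, rfl⟩
  have hN0 : 0 < N := by rw [hN]; exact_mod_cast hApos
  obtain ⟨SK, hSK, hSKa⟩ := hKS A ψ (hψ.mono sFK heeK)
  obtain ⟨SL, hSL, hSLa⟩ := hLS A ψ (hψ.mono sFL heeL)
  rw [← hN] at hSK hSL
  obtain ⟨qK, hqK, hqKi⟩ := HK A SK (by
    rw [← hN]; exact hSK.trans (mul_le_mul_of_nonneg_right hε1K hN0.le))
  obtain ⟨qL, hqL, hqLi⟩ := HLL A SL (by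
    rw [← hN]; exact hSL.trans (mul_le_mul_of_nonneg_right hε1L hN0.le))
  rw [← hN] at hqK hqL hqKi hqLi
  -- generators versus exact permutations
  have gK : ∀ q : A → ℕ, ∑ j, cnt (fun s => q (ψ (k j) s) ≠ q s) ≤
      bdry SK.ξ q + n * (ε1 * N) := by
    intro q
    have : ∀ j, cnt (fun s => q (ψ (k j) s) ≠ q s) ≤
        cnt (fun s => q (SK.ξ j s) ≠ q s) + ε1 * N := by
      intro j
      refine (cnt_le_add (Q := fun s => q (SK.ξ j s) ≠ q s) (R := fun s => s ∈ SK.bad) ?_).trans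
        ?_
      · intro s hs
        by_cases hb : s ∈ SK.bad
        · exact Or.inr hb
        · left
          rw [hSKa s hb j]
          exact hs
      · rw [cnt_mem]
        linarith
    calc _ ≤ ∑ j, (cnt (fun s => q (SK.ξ j s) ≠ q s) + ε1 * N) :=
          sum_le_sum (fun j _ => this j)
      _ = _ := by rw [sum_add_distrib]; simp [bdry]
  have gK' : ∀ q : A → ℕ, bdry SK.ξ q ≤
      ∑ j, cnt (fun s => q (ψ (k j) s) ≠ q s) + n * (ε1 * N) := by
    intro q
    have : ∀ j, cnt (fun s => q (SK.ξ j s) ≠ q s) ≤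
        cnt (fun s => q (ψ (k j) s) ≠ q s) + ε1 * N := by
      intro j
      refine (cnt_le_add (Q := fun s => q (ψ (k j) s) ≠ q s) (R := fun s => s ∈ SK.bad) ?_).trans
        ?_
      · intro s hs
        by_cases hb : s ∈ SK.bad
        · exact Or.inr hb
        · left
          rw [← hSKa s hb j]
          exact hs
      · rw [cnt_mem]
        linarith
    calc _ ≤ ∑ j, (cnt (fun s => q (ψ (k j) s) ≠ q s) + ε1 * N) :=
          sum_le_sum (fun j _ => this j)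
      _ = _ := by rw [sum_add_distrib]; simp
  have gL : ∀ q : A → ℕ, ∑ j, cnt (fun s => q (ψ (l j) s) ≠ q s) ≤
      bdry SL.ξ q + m * (ε1 * N) := by
    intro q
    have : ∀ j, cnt (fun s => q (ψ (l j) s) ≠ q s) ≤
        cnt (fun s => q (SL.ξ j s) ≠ q s) + ε1 * N := by
      intro j
      refine (cnt_le_add (Q := fun s => q (SL.ξ j s) ≠ q s) (R := fun s => s ∈ SL.bad) ?_).trans
        ?_
      · intro s hs
        by_cases hb : s ∈ SL.bad
        · exact Or.inr hb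
        · left
          rw [hSLa s hb j]
          exact hs
      · rw [cnt_mem]
        linarith
    calc _ ≤ ∑ j, (cnt (fun s => q (SL.ξ j s) ≠ q s) + ε1 * N) :=
          sum_le_sum (fun j _ => this j)
      _ = _ := by rw [sum_add_distrib]; simp [bdry]
  have hm' : ∀ g ∈ F, ∀ h ∈ F, cnt (fun s => ψ (g * h) s ≠ ψ g (ψ h s)) ≤ e * N := by
    intro g hg h hh
    rw [hN]
    exact hψ.2 g hg h hh
  have hε1N : n * (ε1 * N) ≤ n * (θ * N) :=
    mul_le_mul_of_nonneg_left (mul_le_mul_of_nonneg_right hε1θ hN0.le) hn0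
  have hε1Nm : m * (ε1 * N) ≤ m * (θ * N) :=
    mul_le_mul_of_nonneg_left (mul_le_mul_of_nonneg_right hε1θ hN0.le) hm0
  have heN : e * N ≤ θ * N := mul_le_mul_of_nonneg_right heθ hN0.le
  have hθN0 : 0 ≤ θ * N := by positivity
  have hMN : M * (θ * N) = t * N := by rw [← hθM]; ring
  -- words in the `k j`
  have hword : ∀ (g : G) (Cg : ℝ) (Fg : Finset G), 0 ≤ Cg → Cg ≤ D → Fg ⊆ F →
      (∀ ε : ℝ, 0 ≤ ε → ∀ (A : Type) [Fintype A] (ψ : G → Equiv.Perm A), AHom ψ Fg ε →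
        ∀ q : A → ℕ, cnt (fun s => q (ψ g s) ≠ q s) ≤
          Cg * (∑ i, cnt (fun s => q (ψ (k i) s) ≠ q s) + ε * (Fintype.card A : ℝ))) →
      cnt (fun s => qK (ψ g s) ≠ qK s) ≤ D * ((n + 2) * (θ * N)) := by
    intro g Cg Fg hCg hCgD hFg hw
    have h1 := hw e he0.le A ψ (hψ.mono hFg le_rfl) qK
    rw [← hN] at h1
    have h2 := gK qK
    have h3 : ∑ i, cnt (fun s => qK (ψ (k i) s) ≠ qK s) + e * N ≤ (n + 2) * (θ * N) := by
      linarith
    have h4 : 0 ≤ ∑ i, cnt (fun s => qK (ψ (k i) s) ≠ qK s) + e * N := by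
      have : 0 ≤ ∑ i, cnt (fun s => qK (ψ (k i) s) ≠ qK s) := sum_nonneg (fun i _ => cnt_nonneg _)
      have : 0 ≤ e * N := by positivity
      linarith
    calc _ ≤ _ := h1
      _ ≤ D * (∑ i, cnt (fun s => qK (ψ (k i) s) ≠ qK s) + e * N) :=
        mul_le_mul_of_nonneg_right hCgD h4
      _ ≤ _ := mul_le_mul_of_nonneg_left h3 (by linarith)
  -- step 1
  have step1 : ∀ i, bdry SK.ξ (fun s => qK (ψ (u i) s)) ≤ t * N := by
    intro i
    have h1 := gK' (fun s => qK (ψ (u i) s))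
    have h2 : ∀ j, cnt (fun s => qK (ψ (u i) (ψ (k j) s)) ≠ qK (ψ (u i) s)) ≤
        2 * (θ * N) + D * ((n + 2) * (θ * N)) := by
      intro j
      have h3 := hm' (u i) (mu i) (k j) (mk j)
      have h4 := hm' (u i * k j * (u i)⁻¹) (mw i j) (u i) (mu i)
      have h5 := hword (u i * k j * (u i)⁻¹) (CW (i, j)) (FW (i, j)) (hCW (i, j)) (hDW (i, j))
        (sFW (i, j)) (hWW (i, j))
      rw [← cnt_perm (ψ (u i))
        (fun s => qK (ψ (u i * k j * (u i)⁻¹) s) ≠ qK s)] at h5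
      have h6 : cnt (fun s => qK (ψ (u i) (ψ (k j) s)) ≠ qK (ψ (u i) s)) ≤
          cnt (fun s => ψ (u i * k j) s ≠ ψ (u i) (ψ (k j) s)) +
          cnt (fun s => ψ (u i * k j * (u i)⁻¹ * u i) s ≠
            ψ (u i * k j * (u i)⁻¹) (ψ (u i) s)) +
          cnt (fun s => qK (ψ (u i * k j * (u i)⁻¹) (ψ (u i) s)) ≠ qK (ψ (u i) s)) := by
        apply cnt_le3
        intro s hs
        by_contra hcon
        push Not at hcon
        obtain ⟨ha, hb, hc⟩ := hcon
        apply hs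
        rw [← ha, ← hc, ← hb, inv_mul_cancel_right]
      linarith
    have h3 : ∑ j, cnt (fun s => qK (ψ (u i) (ψ (k j) s)) ≠ qK (ψ (u i) s)) ≤
        n * (2 * (θ * N) + D * ((n + 2) * (θ * N))) := by
      calc _ ≤ ∑ _j : Fin n, (2 * (θ * N) + D * ((n + 2) * (θ * N))) :=
            sum_le_sum (fun j _ => h2 j)
        _ = _ := by rw [sum_const, card_univ, Fintype.card_fin, nsmul_eq_mul]
    have h4 : bdry SK.ξ (fun s => qK (ψ (u i) s)) ≤
        (n * (3 + D * (n + 2))) * (θ * N) := by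
      linarith
    have h5 : (n * (3 + D * (n + 2)) : ℝ) ≤ M := hMa
    calc _ ≤ _ := h4
      _ ≤ M * (θ * N) := mul_le_mul_of_nonneg_right h5 hθN0
      _ = _ := hMN
  -- step 2
  have step2 : bdry SK.ξ c ≤ t * N := by
    have h1 := gK' c
    have h2 : ∀ j, cnt (fun s => c (ψ (k j) s) ≠ c s) ≤ 2 * (θ * N) := by
      intro j
      have := hc1 (k j) (mk j) (hfix j)
      rw [← hN] at this
      linarith
    have h3 : ∑ j, cnt (fun s => c (ψ (k j) s) ≠ c s) ≤ n * (2 * (θ * N)) := by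
      calc _ ≤ ∑ _j : Fin n, (2 * (θ * N)) := sum_le_sum (fun j _ => h2 j)
        _ = _ := by rw [sum_const, card_univ, Fintype.card_fin, nsmul_eq_mul]
    have h5 : (3 * n : ℝ) ≤ M := hMb
    calc _ ≤ (3 * n) * (θ * N) := by linarith
      _ ≤ M * (θ * N) := mul_le_mul_of_nonneg_right h5 hθN0
      _ = _ := hMN
  -- step 3
  have step3 : ∀ i, cnt (fun s => qL (ψ (u i) s) ≠ qL s) ≤ t * N := by
    intro i
    have h1 := hUU i e he0.le A ψ (hψ.mono (sFU i) le_rfl) qL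
    rw [← hN] at h1
    have h2 := gL qL
    have h3 : ∑ i, cnt (fun s => qL (ψ (l i) s) ≠ qL s) + e * N ≤ (m + 2) * (θ * N) := by
      linarith
    have h4 : 0 ≤ ∑ i, cnt (fun s => qL (ψ (l i) s) ≠ qL s) + e * N := by
      have : 0 ≤ ∑ i, cnt (fun s => qL (ψ (l i) s) ≠ qL s) := sum_nonneg (fun i _ => cnt_nonneg _)
      have : 0 ≤ e * N := by positivity
      linarith
    have h5 : (D * (m + 2) : ℝ) ≤ M := hMc
    calc _ ≤ _ := h1
      _ ≤ D * (∑ i, cnt (fun s => qL (ψ (l i) s) ≠ qL s) + e * N) :=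
        mul_le_mul_of_nonneg_right (hDU i) h4
      _ ≤ D * ((m + 2) * (θ * N)) := mul_le_mul_of_nonneg_left h3 (by linarith)
      _ = (D * (m + 2)) * (θ * N) := by ring
      _ ≤ M * (θ * N) := mul_le_mul_of_nonneg_right h5 hθN0
      _ = _ := hMN
  -- step 4
  choose Ej hEj1 hEj2 using fun j => hflux j e he0.le A ψ (hψ.mono (sFf j) le_rfl)
  obtain ⟨Err, hErr⟩ : ∃ Err : Finset A, Err = univ.biUnion Ej ∪ SL.bad := ⟨_, rfl⟩
  have sEj : ∀ j, Ej j ⊆ Err := fun j s hs => by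
    rw [hErr]
    exact mem_union_left _ (mem_biUnion.2 ⟨j, mem_univ _, hs⟩)
  have sbad : SL.bad ⊆ Err := fun s hs => by
    rw [hErr]
    exact mem_union_right _ hs
  have step4 : (Err.card : ℝ) ≤ t * N := by
    have h1 : Err.card ≤ ∑ j, (Ej j).card + SL.bad.card := by
      rw [hErr]
      exact (card_union_le _ _).trans (Nat.add_le_add_right card_biUnion_le _)
    have h2 : (Err.card : ℝ) ≤ ∑ j, ((Ej j).card : ℝ) + (SL.bad.card : ℝ) := by
      exact_mod_cast h1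
    have h3 : ∑ j, ((Ej j).card : ℝ) ≤ (∑ j, Cf j) * (e * N) := by
      rw [sum_mul]
      apply sum_le_sum
      intro j _
      have := hEj1 j
      rw [← hN] at this
      exact this
    have h4 : (∑ j, Cf j) * (e * N) ≤ D * (θ * N) := by
      apply mul_le_mul _ heN (by positivity) (by linarith)
      linarith
    have h5 : (D + 1 : ℝ) ≤ M := hMe
    have h6 : ε1 * N ≤ θ * N := mul_le_mul_of_nonneg_right hε1θ hN0.le
    calc _ ≤ (D + 1) * (θ * N) := by linarith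
      _ ≤ M * (θ * N) := mul_le_mul_of_nonneg_right h5 hθN0
      _ = _ := hMN
  have step4' : ∀ (S : Finset A) (j : Fin m), cnt (fun s => s ∈ S ∧ SL.ξ j s ∉ S) ≤
        C * (∑ i, cnt (fun s => s ∈ S ∧ ψ (u i) s ∉ S) + cnt (fun s => s ∈ S ∧ s ∈ Err)) := by
    intro S j
    have h1 := hEj2 j S
    have h2 : cnt (fun s => s ∈ S ∧ SL.ξ j s ∉ S) ≤
        cnt (fun s => s ∈ S ∧ ψ (l j) s ∉ S) + cnt (fun s => s ∈ S ∧ s ∈ Err) := by
      apply cnt_le_add
      rintro s ⟨hs1, hs2⟩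
      by_cases hb : s ∈ SL.bad
      · exact Or.inr ⟨hs1, sbad hb⟩
      · left
        rw [← hSLa s hb j]
        exact ⟨hs1, hs2⟩
    have h3 : cnt (fun s => s ∈ S ∧ s ∈ Ej j) ≤ cnt (fun s => s ∈ S ∧ s ∈ Err) :=
      cnt_mono (fun s hs => ⟨hs.1, sEj j hs.2⟩)
    have h4 : 0 ≤ ∑ i, cnt (fun s => s ∈ S ∧ ψ (u i) s ∉ S) :=
      sum_nonneg (fun i _ => cnt_nonneg _)
    have h5 : 0 ≤ cnt (fun s => s ∈ S ∧ s ∈ Err) := cnt_nonneg _
    calc _ ≤ _ := h2
      _ ≤ Cf j * (∑ i, cnt (fun s => s ∈ S ∧ ψ (u i) s ∉ S) +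
            cnt (fun s => s ∈ S ∧ s ∈ Ej j)) + cnt (fun s => s ∈ S ∧ s ∈ Err) := by linarith
      _ ≤ Cf j * (∑ i, cnt (fun s => s ∈ S ∧ ψ (u i) s ∉ S) +
            cnt (fun s => s ∈ S ∧ s ∈ Err)) + cnt (fun s => s ∈ S ∧ s ∈ Err) := by
          have := mul_le_mul_of_nonneg_left h3 (hCf j)
          linarith
      _ ≤ (Cf j + 1) * (∑ i, cnt (fun s => s ∈ S ∧ ψ (u i) s ∉ S) +
            cnt (fun s => s ∈ S ∧ s ∈ Err)) := by
          linarith
      _ ≤ _ := mul_le_mul_of_nonneg_right (hCfle j) (by linarith)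
  -- step 5
  have hquot : (θ + t) / δK ≤ μ / 4 := by
    rw [div_le_iff₀ hδK]
    linarith
  have step5 : ∀ r : A → ℕ, bdry SK.ξ r ≤ t * N →
      cnt (fun s => ¬ Dom qK r (μ / 4) s) ≤ μ * N := by
    intro r hr
    have h1 := hDom n A SK.ξ qK r (μ / 4) δK θ t (by linarith) (by linarith) hδK
      (by rw [← hN]; exact hqK) (by rw [← hN]; exact hr) (by rw [← hN]; exact hqKi)
    rw [← hN] at h1
    refine h1.trans (mul_le_mul_of_nonneg_right ?_ hN0.le)
    linarith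
  have htN : t * N ≤ δM * N := mul_le_mul_of_nonneg_right (ht1.trans hμ1) hN0.le
  have hμN : μ * N ≤ δM * N := mul_le_mul_of_nonneg_right hμ1 hN0.le
  have hμN' : μ * N ≤ (1 / 20) * N := mul_le_mul_of_nonneg_right hμ2 hN0.le
  have htN' : t * N ≤ (1 / 20) * N := mul_le_mul_of_nonneg_right (ht1.trans hμ2) hN0.le
  -- step 6
  have step6 : cnt (fun s => (1 + 1 / 20) * (((part qK s).card : ℕ) : ℝ) <
      (((part qK (ψ (u i0) s)).card : ℕ) : ℝ)) ≤ (1 / 20) * N := by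
    have := HM A SL.ξ (fun i => ψ (u i)) Err qL (fun s => (part qK s).card)
      (by rw [← hN]; exact step4.trans htN)
      (fun i => by rw [← hN]; exact (step3 i).trans htN)
      (fun i => by
        rw [← hN]
        refine (cnt_mono ?_).trans ((step5 _ (step1 i)).trans hμN)
        intro s hs hdom
        have h1 := dom_le hdom
        rw [card_part_comp] at h1
        have h2 : (1 - δM) * (((part qK s).card : ℕ) : ℝ) ≤
            (1 - μ / 4) * (((part qK s).card : ℕ) : ℝ) :=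
          mul_le_mul_of_nonneg_right (by linarith) (Nat.cast_nonneg _)
        exact absurd hs (not_lt.2 (h2.trans h1)))
      (by rw [← hN]; exact hqLi)
      step4' i0
    rw [← hN] at this
    exact this
  -- step 7
  obtain ⟨g0, hg0⟩ : ∃ g0 : G, g0 = (u i0)⁻¹ * d * u i0 := ⟨_, rfl⟩
  rw [← hg0] at mg hmove
  have step7 : cnt (fun s => qK (ψ (u i0) (ψ g0 s)) ≠ qK (ψ (u i0) s)) ≤ t * N := by
    have h3 := hm' (u i0) (mu i0) g0 mg
    have h4 := hm' d md (u i0) (mu i0)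
    have h5 := hword d Cd Fd hCd hDdd sFd hdd
    rw [← cnt_perm (ψ (u i0)) (fun s => qK (ψ d s) ≠ qK s)] at h5
    have h6 : cnt (fun s => qK (ψ (u i0) (ψ g0 s)) ≠ qK (ψ (u i0) s)) ≤
        cnt (fun s => ψ (u i0 * g0) s ≠ ψ (u i0) (ψ g0 s)) +
        cnt (fun s => ψ (d * u i0) s ≠ ψ d (ψ (u i0) s)) +
        cnt (fun s => qK (ψ d (ψ (u i0) s)) ≠ qK (ψ (u i0) s)) := by
      apply cnt_le3
      intro s hs
      by_contra hcon
      push Not at hcon
      obtain ⟨ha, hb, hc⟩ := hcon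
      apply hs
      have hgg : u i0 * g0 = d * u i0 := by rw [hg0]; group
      rw [← ha, ← hc, ← hb, hgg]
    have h7 : (2 + D * (n + 2) : ℝ) ≤ M := hMf
    calc _ ≤ (2 + D * (n + 2)) * (θ * N) := by linarith
      _ ≤ M * (θ * N) := mul_le_mul_of_nonneg_right h7 hθN0
      _ = _ := hMN
  -- step 8
  have step8 := hFin A qK (fun s => qK (ψ (u i0) s)) c (ψ g0) (μ / 4) (1 / 20) (by linarith)
    (by linarith) le_rfl
    (by rw [← hN]; exact (step5 _ (step1 i0)).trans hμN')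
    (by
      rw [← hN]
      refine (cnt_mono ?_).trans step6
      intro s hs
      rw [card_part_comp] at hs
      exact hs)
    (by rw [← hN]; exact step7.trans htN')
    (by rw [← hN]; exact (step5 _ step2).trans hμN')
  have h1 := hc2 g0 mg hmove
  have h2 := cnt_not (fun s => c (ψ g0 s) = c s)
  rw [← hN] at step8 h1 h2
  have h3 : cnt (fun s => c (ψ g0 s) ≠ c s) = N - cnt (fun s => c (ψ g0 s) = c s) := h2
  have h4 : e ≤ 1 / 20 := heθ.trans (hθt.trans (ht1.trans hμ2))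
  have h5 : 2 * e * N ≤ (1 / 10) * N := mul_le_mul_of_nonneg_right (by linarith) hN0.le
  linarith

end

end Pool.Agent.Helper13.Sof
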