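import Mathlib

/-!
# Definitions for the proof that commuting sofic actions need not have a sofic combined action

Everything takes place on a finite set `A`; labellings `q : A → ℕ` encode partitions of `A`.
-/

namespace Pool.Agent.Helper13.Sof

open Finset

noncomputable section

variable {A : Type} [Fintype A]

open Classical in
/-- The number (as a real) of points of `A` with the property `P`. -/
def cnt (P : A → Prop) : ℝ := ((univ.filter P).card : ℝ)

open Classical in
/-- The part of the labelling `q` that contains `s`. -/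
def part (q : A → ℕ) (s : A) : Finset A := univ.filter (fun s' => q s' = q s)

/-- The boundary of the labelling `q` for the permutations `ξ i`. -/
def bdry {n : ℕ} (ξ : Fin n → Equiv.Perm A) (q : A → ℕ) : ℝ :=
  ∑ i, cnt (fun s => q (ξ i s) ≠ q s)

/-- The boundary of the set `Q` for the permutations `ξ i`. -/
def eb {n : ℕ} (ξ : Fin n → Equiv.Perm A) (Q : Finset A) : ℝ :=
  ∑ i, cnt (fun s => s ∈ Q ∧ ξ i s ∉ Q)

/-- The boundary of `Q` inside `R` (both directions). -/
def er {n : ℕ} (ξ : Fin n → Equiv.Perm A) (R Q : Finset A) : ℝ :=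
  ∑ i, (cnt (fun s => s ∈ Q ∧ ξ i s ∈ R ∧ ξ i s ∉ Q) +
    cnt (fun s => s ∈ R ∧ s ∉ Q ∧ ξ i s ∈ Q))

/-- `B` has no subset of intermediate size with small boundary. -/
def Irred {n : ℕ} (ξ : Fin n → Equiv.Perm A) (B : Finset A) (δ τ : ℝ) : Prop :=
  ∀ Q ⊆ B, eb ξ Q ≤ δ * (B.card : ℝ) →
    (Q.card : ℝ) ≤ τ * (B.card : ℝ) ∨ (1 - τ) * (B.card : ℝ) ≤ (Q.card : ℝ)

/-- `n` permutations of order dividing `p`, which off the set `bad` agree with permutations
`η i j` such that for all `i ≠ j` the pair `η i j, η j i` satisfies the Heisenberg relations. -/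
structure KSys (n p : ℕ) (A : Type) [Fintype A] where
  ξ : Fin n → Equiv.Perm A
  η : Fin n → Fin n → Equiv.Perm A
  bad : Finset A
  ξ_pow : ∀ i, ξ i ^ p = 1
  η_pow : ∀ i j, i ≠ j → η i j ^ p = 1
  comm : ∀ i j, i ≠ j → Commute (η i j * η j i * (η i j)⁻¹ * (η j i)⁻¹) (η i j)
  agree : ∀ s, s ∉ bad → ∀ i j, i ≠ j → ∀ a : ℕ, (ξ i ^ a) s = (η i j ^ a) s

/-- `f` minus its average over the powers of `x`. -/
def Qop {A : Type} (p : ℕ) (x : Equiv.Perm A) (f : A → ℝ) (s : A) : ℝ :=
  f s - (∑ a ∈ range p, f ((x ^ a) s)) / (p : ℝ)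

/-- The values of `f` are subprobability vectors. -/
def IsSub {A I : Type} [Fintype I] (f : A → I → ℝ) : Prop :=
  (∀ s i, 0 ≤ f s i) ∧ ∀ s, ∑ i, f s i ≤ 1

/-- Squared norm of a vector valued function. -/
def nsq {I : Type} [Fintype I] (f : A → I → ℝ) : ℝ := ∑ s, ∑ i, f s i ^ 2

/-- The operator `1 - (average over the powers of ξ j)` on vector valued functions. -/
def Qv {A I : Type} (p : ℕ) (x : Equiv.Perm A) (f : A → I → ℝ) : A → I → ℝ :=
  fun s i => Qop p x (fun t => f t i) s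

/-- The energy of `f`. -/
def energy {n : ℕ} {I : Type} [Fintype I] (p : ℕ) (ξ : Fin n → Equiv.Perm A)
    (f : A → I → ℝ) : ℝ := ∑ j, nsq (Qv p (ξ j) f)

/-- The Laplacian. -/
def lap {n : ℕ} {A I : Type} (p : ℕ) (ξ : Fin n → Equiv.Perm A)
    (f : A → I → ℝ) : A → I → ℝ := fun s i => ∑ j, Qv p (ξ j) f s i

/-- `ψ` is almost multiplicative on `F`. -/
def AHom {G : Type} [Group G] (ψ : G → Equiv.Perm A) (F : Finset G) (ε : ℝ) : Prop :=
  ψ 1 = 1 ∧ ∀ g ∈ F, ∀ h ∈ F,
    cnt (fun s => ψ (g * h) s ≠ ψ g (ψ h s)) ≤ ε * (Fintype.card A : ℝ)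

/-- A list of elements of order dividing `p`, pairwise satisfying the Heisenberg relations. -/
def HeisFam {G : Type} [Group G] (n p : ℕ) (k : Fin n → G) : Prop :=
  (∀ i, k i ^ p = 1) ∧ ∀ i j, Commute (k i * k j * (k i)⁻¹ * (k j)⁻¹) (k i)

/-- For most points of the `q`-part of `s` the value of `r` is the value at `s`. -/
def Dom (q r : A → ℕ) (τ : ℝ) (s : A) : Prop :=
  (1 - τ) * ((part q s).card : ℝ) ≤ cnt (fun s' => q s' = q s ∧ r s' = r s)

end

end Pool.Agent.Helper13.Sof
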