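import Pool.Agent.Helper13.Sof.Defs
import Pool.Agent.Helper13.Sof.Alg
import Pool.Agent.Helper2.Sofic.Defs

/-!
# Statements of the steps
-/

namespace Pool.Agent.Helper13.Sof

open Finset Pool.Agent.Helper2.Sofic

noncomputable section

/-- Two projections attached to a Heisenberg pair. -/
def HeisIneq : Prop :=
  ∀ (A : Type) [Fintype A] (p : ℕ) [Fact p.Prime] (x y : Equiv.Perm A), x ^ p = 1 → y ^ p = 1 →
    Commute (x * y * x⁻¹ * y⁻¹) x → Commute (x * y * x⁻¹ * y⁻¹) y → ∀ f : A → ℝ,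
    (1 - 1 / √(p : ℝ)) * ∑ s, f s * (Qop p x f s + Qop p y f s) ≤
      ∑ s, (Qop p x f s + Qop p y f s) ^ 2

/-- Spectral gap with an error term. -/
def GapIneq : Prop :=
  ∀ (n p : ℕ) [Fact p.Prime], 4 * n ^ 2 ≤ p → ∀ (A : Type) [Fintype A] (S : KSys n p A)
    (I : Type) [Fintype I] (f : A → I → ℝ), IsSub f →
    (1 / 2) * energy p S.ξ f ≤ nsq (lap p S.ξ f) + 24 * (n : ℝ) ^ 2 * (S.bad.card : ℝ)

/-- Heat flow. -/
def HeatFlow : Prop :=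
  ∀ (n p : ℕ) [Fact p.Prime], 4 * n ^ 2 ≤ p → ∀ δ : ℝ, 0 < δ → ∃ ε : ℝ, 0 < ε ∧
    ∀ (A : Type) [Fintype A] (S : KSys n p A),
      (S.bad.card : ℝ) ≤ ε * (Fintype.card A : ℝ) →
      ∀ (I : Type) [Fintype I] (f : A → I → ℝ), IsSub f →
        ∃ g : A → I → ℝ, IsSub g ∧ energy p S.ξ g ≤ δ * (Fintype.card A : ℝ) ∧
          nsq (fun s i => f s i - g s i) ≤ 4 * energy p S.ξ f + δ * (Fintype.card A : ℝ)

/-- Self improvement of labellings. -/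
def SelfImprove : Prop :=
  ∀ (n p : ℕ) [Fact p.Prime], 4 * n ^ 2 ≤ p → ∀ δ : ℝ, 0 < δ → ∃ ε : ℝ, 0 < ε ∧
    ∀ (A : Type) [Fintype A] (S : KSys n p A),
      (S.bad.card : ℝ) ≤ ε * (Fintype.card A : ℝ) → ∀ q : A → ℕ, ∃ q' : A → ℕ,
        cnt (fun s => q' s ≠ q s) ≤
          36 * (p : ℝ) * bdry S.ξ q + δ * (Fintype.card A : ℝ) ∧
        bdry S.ξ q' ≤ δ * (Fintype.card A : ℝ)

/-- Greedy decomposition into minimal sets. -/
def Greedy : Prop :=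
  ∀ (n : ℕ) (A : Type) [Fintype A] (ξ : Fin n → Equiv.Perm A) (η : ℝ), 0 < η →
    ∃ q : A → ℕ, bdry ξ q ≤ η * (Fintype.card A : ℝ) ∧
      ∀ k : ℕ, (∃ s, q s = k) → ∀ Q : Finset A, Q.Nonempty → (∀ s ∈ Q, k ≤ q s) →
        er ξ (univ.filter (fun s => k ≤ q s)) Q ≤ η * (Q.card : ℝ) →
        cnt (fun s => q s = k) ≤ (Q.card : ℝ)

/-- Decomposition into irreducible parts with tiny boundary. -/
def Decomp : Prop :=
  ∀ (n p : ℕ) [Fact p.Prime], 4 * n ^ 2 ≤ p → ∀ τ : ℝ, 0 < τ → ∃ δ' : ℝ, 0 < δ' ∧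
    ∀ δ : ℝ, 0 < δ → ∃ ε : ℝ, 0 < ε ∧ ∀ (A : Type) [Fintype A] (S : KSys n p A),
      (S.bad.card : ℝ) ≤ ε * (Fintype.card A : ℝ) →
      ∃ q : A → ℕ, bdry S.ξ q ≤ δ * (Fintype.card A : ℝ) ∧
        cnt (fun s => ¬ Irred S.ξ (part q s) δ' τ) ≤ τ * (Fintype.card A : ℝ)

/-- Finite subgroups: an almost action is close to an exact one. -/
def FinStab : Prop :=
  ∀ (G : Type) [Group G] (L : Subgroup G), (L : Set G).Finite → ∀ ε : ℝ, 0 < ε →
    ∃ (F : Finset G) (ε' : ℝ), 0 < ε' ∧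
      ∀ (A : Type) [Fintype A] (ψ : G → Equiv.Perm A), AHom ψ F ε' →
        ∃ (ρ : L →* Equiv.Perm A) (bad : Finset A),
          (bad.card : ℝ) ≤ ε * (Fintype.card A : ℝ) ∧
          ∀ s, s ∉ bad → ∀ g : L, ρ g s = ψ g s

/-- The group generated by a Heisenberg pair is finite. -/
def HeisFinite : Prop :=
  ∀ (G : Type) [Group G] (p : ℕ), 0 < p → ∀ x y : G, x ^ p = 1 → y ^ p = 1 →
    Commute (x * y * x⁻¹ * y⁻¹) x → Commute (x * y * x⁻¹ * y⁻¹) y →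
    ((Subgroup.closure {x, y} : Subgroup G) : Set G).Finite

/-- A Heisenberg family gives a `KSys` on every almost action. -/
def MkKSys : Prop :=
  ∀ (G : Type) [Group G] (n p : ℕ), 0 < p → ∀ k : Fin n → G, HeisFam n p k → ∀ ε : ℝ, 0 < ε →
    ∃ (F : Finset G) (ε' : ℝ), 0 < ε' ∧
      ∀ (A : Type) [Fintype A] (ψ : G → Equiv.Perm A), AHom ψ F ε' →
        ∃ S : KSys n p A, (S.bad.card : ℝ) ≤ ε * (Fintype.card A : ℝ) ∧
          ∀ s, s ∉ S.bad → ∀ i, S.ξ i s = ψ (k i) s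

/-- Labellings almost invariant under generators are almost invariant under words. -/
def WordLabel : Prop :=
  ∀ (G : Type) [Group G] (n : ℕ) (k : Fin n → G) (g : G),
    g ∈ Subgroup.closure (Set.range k) → ∃ (C : ℝ) (F : Finset G), 0 ≤ C ∧
      ∀ ε : ℝ, 0 ≤ ε → ∀ (A : Type) [Fintype A] (ψ : G → Equiv.Perm A), AHom ψ F ε →
        ∀ q : A → ℕ, cnt (fun s => q (ψ g s) ≠ q s) ≤
          C * (∑ i, cnt (fun s => q (ψ (k i) s) ≠ q s) + ε * (Fintype.card A : ℝ))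

/-- The flux out of a set under a word is controlled by the fluxes under generators, with an
error that only counts points of the set. -/
def WordFlux : Prop :=
  ∀ (G : Type) [Group G] (m : ℕ) (u : Fin m → G) (g : G),
    g ∈ Subgroup.closure (Set.range u) → ∃ (C : ℝ) (F : Finset G), 0 ≤ C ∧
      ∀ ε : ℝ, 0 ≤ ε → ∀ (A : Type) [Fintype A] (ψ : G → Equiv.Perm A), AHom ψ F ε →
        ∃ Err : Finset A, (Err.card : ℝ) ≤ C * (ε * (Fintype.card A : ℝ)) ∧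
          ∀ S : Finset A, cnt (fun s => s ∈ S ∧ ψ g s ∉ S) ≤
            C * (∑ i, cnt (fun s => s ∈ S ∧ ψ (u i) s ∉ S) + cnt (fun s => s ∈ S ∧ s ∈ Err))

/-- An almost invariant labelling is almost constant on irreducible parts. -/
def DomLemma : Prop :=
  ∀ (n : ℕ) (A : Type) [Fintype A] (ξ : Fin n → Equiv.Perm A) (q r : A → ℕ)
    (τ δ' δ δ2 : ℝ), 0 < τ → τ < 1 / 3 → 0 < δ' →
    bdry ξ q ≤ δ * (Fintype.card A : ℝ) → bdry ξ r ≤ δ2 * (Fintype.card A : ℝ) →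
    cnt (fun s => ¬ Irred ξ (part q s) δ' τ) ≤ τ * (Fintype.card A : ℝ) →
    cnt (fun s => ¬ Dom q r τ s) ≤ (2 * τ + (δ + δ2) / δ') * (Fintype.card A : ℝ)

/-- A function that is almost nondecreasing along generators of a Kazhdan family is almost
invariant. -/
def MonoLemma : Prop :=
  ∀ (m m' : ℕ) (C κ : ℝ), 0 ≤ C → 0 < κ → ∃ τL : ℝ, 0 < τL ∧ ∀ δL : ℝ, 0 < δL →
    ∃ δ : ℝ, 0 < δ ∧ ∀ (A : Type) [Fintype A] (ξ : Fin m → Equiv.Perm A)
      (u : Fin m' → Equiv.Perm A) (Err : Finset A) (q ν : A → ℕ),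
      (Err.card : ℝ) ≤ δ * (Fintype.card A : ℝ) →
      (∀ i, cnt (fun s => q (u i s) ≠ q s) ≤ δ * (Fintype.card A : ℝ)) →
      (∀ i, cnt (fun s => (ν (u i s) : ℝ) < (1 - δ) * (ν s : ℝ)) ≤
        δ * (Fintype.card A : ℝ)) →
      cnt (fun s => ¬ Irred ξ (part q s) δL τL) ≤ τL * (Fintype.card A : ℝ) →
      (∀ (S : Finset A) (j : Fin m), cnt (fun s => s ∈ S ∧ ξ j s ∉ S) ≤
        C * (∑ i, cnt (fun s => s ∈ S ∧ u i s ∉ S) + cnt (fun s => s ∈ S ∧ s ∈ Err))) →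
      ∀ i, cnt (fun s => (1 + κ) * (ν s : ℝ) < (ν (u i s) : ℝ)) ≤
        κ * (Fintype.card A : ℝ)

/-- The final counting argument. -/
def FinalLemma : Prop :=
  ∀ (A : Type) [Fintype A] (q r c : A → ℕ) (g : Equiv.Perm A) (τ κ : ℝ), 0 < τ → τ ≤ κ →
    κ ≤ 1 / 20 →
    cnt (fun s => ¬ Dom q r τ s) ≤ κ * (Fintype.card A : ℝ) →
    cnt (fun s => (1 + κ) * ((part q s).card : ℝ) < ((part r s).card : ℝ)) ≤
      κ * (Fintype.card A : ℝ) →
    cnt (fun s => r (g s) ≠ r s) ≤ κ * (Fintype.card A : ℝ) →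
    cnt (fun s => ¬ Dom q c τ s) ≤ κ * (Fintype.card A : ℝ) →
    cnt (fun s => c (g s) ≠ c s) ≤ (1 / 2) * (Fintype.card A : ℝ)

/-- The non-soficity criterion. -/
def Core : Prop :=
  ∀ (G : Type) [Group G] (p n m m' : ℕ) [Fact p.Prime] (k : Fin n → G) (l : Fin m → G)
    (u : Fin m' → G), HeisFam n p k → HeisFam m p l → 4 * n ^ 2 ≤ p → 4 * m ^ 2 ≤ p →
    (∀ i, u i ∈ Subgroup.closure (Set.range l)) →
    (∀ j, l j ∈ Subgroup.closure (Set.range u)) →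
    (∀ i j, u i * k j * (u i)⁻¹ ∈ Subgroup.closure (Set.range k)) →
    ∀ (i0 : Fin m') (d : G), d ∈ Subgroup.closure (Set.range k) →
    ∀ (X : Type) (α : G →* Equiv.Perm X) (x0 : X), (∀ j, α (k j) x0 = x0) →
      α ((u i0)⁻¹ * d * u i0) x0 ≠ x0 → ¬ IsSofic α

/-- `GG p` is residually finite. -/
def RFGoal : Prop := ∀ (p : ℕ) [Fact p.Prime], ResFin (GG p)

/-- Free actions of residually finite groups are sofic. -/
def FreeSofic : Prop :=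
  ∀ (G X : Type) [Group G] (α : G →* Equiv.Perm X), ResFin G →
    (∀ g x, α g x = x → g = 1) → IsSofic α

def AlgHeisK : Prop := ∀ (p : ℕ) [Fact p.Prime], HeisFam 6 p (kfam p)

def AlgHeisL : Prop := ∀ (p : ℕ) [Fact p.Prime], HeisFam 3 p (lfam p)

def AlgClos : Prop := ∀ (p : ℕ) [Fact p.Prime],
  (∀ i, ufam p i ∈ Subgroup.closure (Set.range (lfam p))) ∧
  ∀ j, lfam p j ∈ Subgroup.closure (Set.range (ufam p))

def AlgMono : Prop := ∀ (p : ℕ) [Fact p.Prime] (i : Fin 3) (j : Fin 6),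
  ufam p i * kfam p j * (ufam p i)⁻¹ ∈ Subgroup.closure (Set.range (kfam p))

def AlgNot : Prop := ∀ (p : ℕ) [Fact p.Prime],
  (ufam p 1)⁻¹ * kfam p 2 * ufam p 1 ∉ Subgroup.closure (Set.range (kfam p))

end

end Pool.Agent.Helper13.Sof
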