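import Pool.Agent.Helper13.Sof.Core
import Pool.Agent.Helper2.Sofic.Basic
import Pool.Agent.Helper75.Sof.Heis
import Pool.Agent.Helper50.Sof.Gap
import Pool.Agent.Helper41.Sof.Heat
import Pool.Agent.Helper88.Sof.SI
import Pool.Agent.Helper90.Sof.Greedy
import Pool.Agent.Helper99.Sof.Decomp
import Pool.Agent.Helper94.Sof.Packets
import Pool.Agent.Helper31.Sof.HeisFin
import Pool.Agent.Helper88.Sof.Word
import Pool.Agent.Helper53.Sof.Domn
import Pool.Agent.Helper53.Sof.Mono
import Pool.Agent.Helper23.Sof.RF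
import Pool.Agent.Helper26.Sof.Free
import Pool.Agent.Helper98.Sof.AlgH
import Pool.Agent.Helper96.Sof.AlgC
import Pool.Agent.Helper21.Sof.AlgNot

/-!
# Two commuting sofic actions whose combined action is not sofic
-/

namespace Pool.Agent.Helper13.Sof

open Pool.Agent.Helper2.Sofic

noncomputable section

theorem core_holds : Core :=
  core
    (Helper99.Sof.decomp
      (Helper88.Sof.selfImprove (Helper41.Sof.heatFlow
        (Helper50.Sof.gapIneq Helper75.Sof.heisIneq)))
      Helper90.Sof.greedy)
    (Helper94.Sof.mkKSys Helper94.Sof.finStab Helper31.Sof.heisFinite)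
    Helper88.Sof.wordLabel Helper88.Sof.wordFlux Helper53.Sof.domLemma Helper53.Sof.monoLemma
    Helper94.Sof.finalLemma

/-- The finitely generated group generated by `kfam` and `lfam`. -/
def G0 (p : ℕ) : Subgroup (GG p) := Subgroup.closure (Set.range (kfam p) ∪ Set.range (lfam p))

theorem HeisFam.of_injective {G H : Type} [Group G] [Group H] {n p : ℕ} (f : G →* H)
    (hf : Function.Injective f) {k : Fin n → G} (h : HeisFam n p (fun i => f (k i))) :
    HeisFam n p k := by
  refine ⟨fun i => hf ?_, fun i j => hf ?_⟩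
  · rw [map_pow, map_one]
    exact h.1 i
  · have := h.2 i j
    unfold Commute SemiconjBy at this
    simpa using this

theorem ResFin.of_injective {G H : Type} [Group G] [Group H] (f : G →* H)
    (hf : Function.Injective f) (h : ResFin H) : ResFin G := by
  intro g hg
  obtain ⟨Q, hQ, hfin, q, hq⟩ := h (f g) (fun h' => hg (hf (by rw [h', map_one])))
  exact ⟨Q, hQ, hfin, q.comp f, hq⟩

theorem mem_closure_sub {G ι : Type} [Group G] (S : Subgroup G) (v : ι → S) (x : S) :
    x ∈ Subgroup.closure (Set.range v) ↔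
      (x : G) ∈ Subgroup.closure (Set.range (fun i => (v i : G))) := by
  have e : Subgroup.closure (Set.range (fun i => (v i : G))) =
      (Subgroup.closure (Set.range v)).map S.subtype := by
    rw [MonoidHom.map_closure, ← Set.range_comp]
    rfl
  rw [e]
  constructor
  · intro h
    exact Subgroup.mem_map_of_mem S.subtype h
  · rintro ⟨y, hy, hyx⟩
    have : y = x := Subtype.ext hyx
    rwa [← this]

/-- The action of `G` on `G × W` through the first coordinate. -/
def act1 (G W : Type) [Group G] : G →* Equiv.Perm (G × W) where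
  toFun g := Equiv.prodCongr (Equiv.mulLeft g) (Equiv.refl _)
  map_one' := by ext x <;> simp
  map_mul' g h := by ext x <;> simp [mul_assoc]

/-- The action `h (y, w) = (y h⁻¹, h w)`. -/
def act2 {G W : Type} [Group G] (β : G →* Equiv.Perm W) : G →* Equiv.Perm (G × W) where
  toFun h := Equiv.prodCongr (Equiv.mulRight h⁻¹) (β h)
  map_one' := by ext x <;> simp
  map_mul' g h := by ext x <;> simp [mul_assoc]

/-- The two actions. -/
def act {G W : Type} [Group G] (β : G →* Equiv.Perm W) (i : Bool) : G →* Equiv.Perm (G × W) :=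
  if i then act2 β else act1 G W

theorem act_comm {G W : Type} [Group G] (β : G →* Equiv.Perm W) (g h : G) :
    act1 G W g * act2 β h = act2 β h * act1 G W g := by
  ext x <;> simp [act1, act2, mul_assoc]

/-- The combined action. -/
def comb {G W : Type} [Group G] (β : G →* Equiv.Perm W) :
    DSum (fun _ : Bool => G) →* Equiv.Perm (G × W) where
  toFun f := act1 G W (f.1 false) * act2 β (f.1 true)
  map_one' := by
    simp
  map_mul' f g := by
    have e1 : (f * g).1 false = f.1 false * g.1 false := rfl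
    have e2 : (f * g).1 true = f.1 true * g.1 true := rfl
    rw [e1, e2, map_mul, map_mul]
    have := act_comm β (g.1 false) (f.1 true)
    rw [mul_assoc, ← mul_assoc (act1 G W (g.1 false)), this]
    simp only [mul_assoc]

/-- The diagonal. -/
def diag (G : Type) [Group G] : G →* DSum (fun _ : Bool => G) where
  toFun g := ⟨fun _ => g, Set.toFinite _⟩
  map_one' := rfl
  map_mul' _ _ := rfl

theorem not_sofic_comb {G : Type} [Group G] (K : Subgroup G) (g0 : G) (hg0 : g0 ∉ K)
    (H : ∀ (X : Type) (α : G →* Equiv.Perm X) (x0 : X), (∀ k ∈ K, α k x0 = x0) →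
      α g0 x0 ≠ x0 → ¬ IsSofic α) :
    ¬ IsSofic (comb (MulAction.toPermHom G (G ⧸ K))) := by
  intro hs
  have e : ∀ g : G, ((comb (MulAction.toPermHom G (G ⧸ K))).comp (diag G)) g
      ((1 : G), ((1 : G) : G ⧸ K)) = ((1 : G), ((g : G) : G ⧸ K)) := by
    intro g
    simp [comb, diag, act1, act2]
    try rfl
  refine H _ _ ((1 : G), ((1 : G) : G ⧸ K)) ?_ ?_ (hs.pullback (diag G))
  · intro k hk
    rw [e]
    simp only [Prod.mk.injEq, true_and]
    exact (QuotientGroup.eq (s := K)).2 (by simpa using hk)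
  · rw [e]
    intro h
    simp only [Prod.mk.injEq, true_and] at h
    have := (QuotientGroup.eq (s := K)).1 h
    exact hg0 (by simpa using this)

theorem countable_of_fg {G : Type} [Group G] (h : Group.FG G) : Countable G := by
  obtain ⟨α, hα, φ, hφ⟩ := Group.fg_iff_exists_freeGroup_hom_surjective_finite.1 h
  exact hφ.countable

theorem fg_G0 (p : ℕ) : Group.FG (G0 p) := by
  rw [Group.fg_iff_subgroup_fg, Subgroup.fg_iff]
  exact ⟨_, rfl, (Set.finite_range _).union (Set.finite_range _)⟩

theorem kfam_mem (p : ℕ) (j : Fin 6) : kfam p j ∈ G0 p :=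
  Subgroup.subset_closure (Or.inl ⟨j, rfl⟩)

theorem lfam_mem (p : ℕ) (j : Fin 3) : lfam p j ∈ G0 p :=
  Subgroup.subset_closure (Or.inr ⟨j, rfl⟩)

theorem ufam_mem (p : ℕ) [Fact p.Prime] (i : Fin 3) : ufam p i ∈ G0 p :=
  Subgroup.closure_mono Set.subset_union_right ((Helper96.Sof.algClos p).1 i)

/-- The generators of `K` in `G0`. -/
def k0 (p : ℕ) (j : Fin 6) : G0 p := ⟨kfam p j, kfam_mem p j⟩

/-- The generators of `L` in `G0`. -/
def l0 (p : ℕ) (j : Fin 3) : G0 p := ⟨lfam p j, lfam_mem p j⟩

/-- The conjugating elements in `G0`. -/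
def u0 (p : ℕ) [Fact p.Prime] (j : Fin 3) : G0 p := ⟨ufam p j, ufam_mem p j⟩

instance fact149 : Fact (Nat.Prime 149) := ⟨by norm_num⟩

theorem ex_group : ∃ (G : Type) (_ : Group G) (K : Subgroup G) (g0 : G), Group.FG G ∧ ResFin G ∧
    g0 ∉ K ∧ ∀ (X : Type) (α : G →* Equiv.Perm X) (x0 : X), (∀ k ∈ K, α k x0 = x0) →
      α g0 x0 ≠ x0 → ¬ IsSofic α := by
  refine ⟨G0 149, inferInstance, Subgroup.closure (Set.range (k0 149)),
    (u0 149 1)⁻¹ * k0 149 2 * u0 149 1, fg_G0 149,
    ResFin.of_injective (G0 149).subtype (G0 149).subtype_injective (Helper23.Sof.rfGoal 149),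
    ?_, ?_⟩
  · rw [mem_closure_sub]
    exact Helper21.Sof.algNot 149
  · intro X α x0 hfix hmove
    refine core_holds (G0 149) 149 6 3 3 (k0 149) (l0 149) (u0 149)
      (HeisFam.of_injective (G0 149).subtype (G0 149).subtype_injective
        (Helper98.Sof.algHeisK 149))
      (HeisFam.of_injective (G0 149).subtype (G0 149).subtype_injective
        (Helper98.Sof.algHeisL 149))
      (by norm_num) (by norm_num) ?_ ?_ ?_ 1 (k0 149 2) (Subgroup.subset_closure ⟨2, rfl⟩)
      X α x0 (fun j => hfix _ (Subgroup.subset_closure ⟨j, rfl⟩)) hmove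
    · intro i
      rw [mem_closure_sub]
      exact (Helper96.Sof.algClos 149).1 i
    · intro j
      rw [mem_closure_sub]
      exact (Helper96.Sof.algClos 149).2 j
    · intro i j
      rw [mem_closure_sub]
      exact Helper96.Sof.algMono 149 i j

theorem main : ∃ (X G : Type) (_ : Group G) (α : Bool → G →* Equiv.Perm X)
    (γ : DSum (fun _ : Bool => G) →* Equiv.Perm X),
    Countable X ∧ Countable G ∧ Group.FG G ∧ ResFin G ∧
    (∀ i j, i ≠ j → ∀ g h, α i g * α j h = α j h * α i g) ∧
    (∀ i g x, α i g x = x → g = 1) ∧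
    (∀ i, IsSofic (α i)) ∧
    (∀ f, γ f = α false (f.1 false) * α true (f.1 true)) ∧
    (∀ x y, ∃ f, γ f x = y) ∧
    ¬ IsSofic γ := by
  obtain ⟨G, _, K, g0, hFG, hRF, hg0, H⟩ := ex_group
  have hc : Countable G := countable_of_fg hFG
  have hcK : Countable (G ⧸ K) := Quotient.mk_surjective.countable
  have hfree : ∀ i g (x : G × (G ⧸ K)), act (MulAction.toPermHom G (G ⧸ K)) i g x = x →
      g = 1 := by
    intro i g x hx
    cases i
    · have := congrArg Prod.fst hx
      simpa [act, act1] using this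
    · have := congrArg Prod.fst hx
      simpa [act, act2] using this
  refine ⟨G × (G ⧸ K), G, inferInstance, act (MulAction.toPermHom G (G ⧸ K)),
    comb (MulAction.toPermHom G (G ⧸ K)), inferInstance, hc, hFG, hRF, ?_, hfree,
    fun i => Helper26.Sof.freeSofic G _ _ hRF (hfree i), ?_, ?_, not_sofic_comb K g0 hg0 H⟩
  · intro i j hij g h
    cases i <;> cases j
    · exact absurd rfl hij
    · exact act_comm _ g h
    · exact (act_comm _ h g).symm
    · exact absurd rfl hij
  · intro f
    rfl
  · rintro ⟨y, w⟩ ⟨y', w'⟩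
    obtain ⟨a, ha⟩ := MulAction.exists_smul_eq G w w'
    refine ⟨⟨fun i => if i then a else y' * a * y⁻¹, Set.toFinite _⟩, ?_⟩
    have e : comb (MulAction.toPermHom G (G ⧸ K))
        ⟨fun i => if i then a else y' * a * y⁻¹, Set.toFinite _⟩ (y, w) =
        (y' * a * y⁻¹ * (y * a⁻¹), a • w) := rfl
    rw [e, ha]
    simp

end

end Pool.Agent.Helper13.Sof
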